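import Pool.Agent.Helper32_NJ.Stmts

set_option autoImplicit false

/-! # Squad NJ, modules REA and TW3 -/

namespace Pool.Agent.NJ.H48

open Pool.Agent.NJ

theorem rea : REAStmt := by
  intro e₂ e₃ d₁ d₂ r s w A B h
  have hs : 0 < s ^ 2 := by have := h.s0; positivity
  have hw : 0 < w ^ 2 := by have := h.w0; positivity
  have hA : A ≠ 0 := by
    rintro rfl
    have := h.h1
    have h2 := h.eq
    rw [this] at h2
    simp at h2
    exact h.w0 h2
  have hB : B ≠ 0 := by
    rintro rfl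
    have := h.h2
    have h2 := h.eq
    rw [this] at h2
    simp at h2
    exact h.w0 h2
  have hA2 : 0 < A ^ 2 := by positivity
  have hB2 : 0 < B ^ 2 := by positivity
  refine ⟨fun he hd => ?_, fun he2 he3 => ?_⟩
  · have h1 : 0 < r - e₂ * s ^ 2 := by rw [h.h2]; positivity
    have h2 : 0 < e₂ * s ^ 2 := by positivity
    have h3 : 0 < d₁ * A ^ 2 := by rw [← h.h1]; linarith
    exact pos_of_mul_pos_left h3 hA2.le
  · by_contra hd
    have h1 : r - e₂ * s ^ 2 < 0 ∨ r - e₂ * s ^ 2 = 0 := by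
      have : d₂ * B ^ 2 ≤ 0 := mul_nonpos_of_nonpos_of_nonneg (not_lt.1 hd) hB2.le
      rw [h.h2]
      exact lt_or_eq_of_le this
    rcases h1 with h1 | h1
    · have h2 : e₂ * s ^ 2 < 0 := mul_neg_of_neg_of_pos he2 hs
      have h3 : 0 < e₃ * s ^ 2 := mul_pos he3 hs
      have h4 : r < 0 := by linarith
      have h5 : r - e₃ * s ^ 2 < 0 := by linarith
      have h6 : 0 < r * (r - e₂ * s ^ 2) := mul_pos_of_neg_of_neg h4 h1
      have h7 : r * (r - e₂ * s ^ 2) * (r - e₃ * s ^ 2) < 0 := mul_neg_of_pos_of_neg h6 h5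
      have := h.eq
      linarith
    · have := h.eq
      rw [h1] at this
      simp at this
      exact h.w0 this

theorem sqm (x : ℤ) : x ^ 2 % 8 = 0 ∨ x ^ 2 % 8 = 1 ∨ x ^ 2 % 8 = 4 := by
  have h : x % 8 = 0 ∨ x % 8 = 1 ∨ x % 8 = 2 ∨ x % 8 = 3 ∨ x % 8 = 4 ∨ x % 8 = 5 ∨ x % 8 = 6 ∨
    x % 8 = 7 := by omega
  rcases h with h | h | h | h | h | h | h | h <;> simp [pow_two, Int.mul_emod, h]

theorem sqo (x : ℤ) (h : x % 2 = 1) : x ^ 2 % 8 = 1 := by
  have h : x % 8 = 1 ∨ x % 8 = 3 ∨ x % 8 = 5 ∨ x % 8 = 7 := by omega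
  rcases h with h | h | h | h <;> simp [pow_two, Int.mul_emod, h]

theorem mul8 {x y : ℤ} (a b : ℤ) (hx : x % 8 = a) (hy : y % 8 = b) : (x * y) % 8 = (a * b) % 8 := by
  rw [Int.mul_emod, hx, hy]

theorem odd_of_sq {x : ℤ} (h : x ^ 2 % 2 = 1) : x % 2 = 1 := by
  rcases Int.emod_two_eq_zero_or_one x with h1 | h1
  · simp [pow_two, Int.mul_emod, h1] at h
  · exact h1

theorem odd_mul {x y : ℤ} (h : (x * y) % 2 = 1) : x % 2 = 1 ∧ y % 2 = 1 := by
  rcases Int.emod_two_eq_zero_or_one x with h1 | h1 <;>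
    rcases Int.emod_two_eq_zero_or_one y with h2 | h2 <;>
    simp_all [Int.mul_emod]

theorem tw3 : TW3Stmt := by
  intro e₂ e₃ d₁ d₂ r s w A B h he2 he3
  have hrs := h.eq
  have h1 := h.h1
  have h2 := h.h2
  have hA : A ≠ 0 := by
    rintro rfl
    rw [h1] at hrs
    simp at hrs
    exact h.w0 hrs
  have hB0 : B ≠ 0 := by
    rintro rfl
    rw [h2] at hrs
    simp at hrs
    exact h.w0 hrs
  suffices hmain : (d₂ % 8 = 1 ∧ d₁ % 8 = 1) ∨ (d₂ % 8 = 7 ∧ d₁ % 16 = 2) ∨
      (d₂ % 8 ≠ 1 ∧ d₂ % 8 ≠ 7) by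
    rcases hmain with h | h | h
    · exact ⟨fun _ => h.2, fun h' => by omega⟩
    · exact ⟨fun h' => by omega, fun _ => h.2⟩
    · exact ⟨fun h' => absurd h' h.1, fun h' => absurd h' h.2⟩
  by_cases hd : d₂ % 8 = 1 ∨ d₂ % 8 = 7
  swap
  · right; right
    exact ⟨fun h => hd (Or.inl h), fun h => hd (Or.inr h)⟩
  -- the numbers
  obtain ⟨m, rfl, hm⟩ : ∃ m, e₂ = 4 * m ∧ m % 8 = 1 := ⟨e₂ / 4, by omega, by omega⟩
  obtain ⟨u, rfl, hu⟩ : ∃ u, e₃ = 2 * u ∧ u % 8 = 1 := ⟨e₃ / 2, by omega, by omega⟩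
  rcases Int.emod_two_eq_zero_or_one B with hB | hB
  swap
  · -- `B` odd
    have hB2 := sqo B hB
    have hR2 : (r - 4 * m * s ^ 2) % 8 = d₂ % 8 := by
      rw [h2, mul8 (d₂ % 8) 1 rfl hB2, mul_one, Int.emod_emod_of_dvd _ (dvd_refl 8)]
    rcases Int.emod_two_eq_zero_or_one s with hs | hs
    · -- `s` even
      obtain ⟨t, rfl⟩ : ∃ t, s = 2 * t := ⟨s / 2, by omega⟩
      have e1 : 4 * m * (2 * t) ^ 2 = 8 * (2 * m * t ^ 2) := by ring
      have e2 : 2 * u * (2 * t) ^ 2 = 8 * (u * t ^ 2) := by ring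
      have hr : r % 8 = d₂ % 8 := by rw [e1] at hR2; omega
      have hR3 : (r - 2 * u * (2 * t) ^ 2) % 8 = d₂ % 8 := by rw [e2]; omega
      have hp := mul8 _ _ (mul8 _ _ hr hR2) hR3
      rw [← hrs] at hp
      rcases hd with hd | hd
      · left
        refine ⟨hd, ?_⟩
        rw [hd] at hr
        have ho : (d₁ * A ^ 2) % 2 = 1 := by rw [← h1]; omega
        have hAo := odd_of_sq (odd_mul ho).2
        have := mul8 (d₁ % 8) 1 rfl (sqo A hAo)
        rw [← h1, hr, mul_one] at this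
        omega
      · exfalso
        rw [hd] at hp
        norm_num at hp
        rcases sqm w with h | h | h <;> omega
    · -- `s` odd
      have hs2 := sqo s hs
      have hms := mul8 1 1 hm hs2
      have hus := mul8 1 1 hu hs2
      norm_num at hms hus
      have e1 : 4 * m * s ^ 2 = 4 * (m * s ^ 2) := by ring
      have e2 : 2 * u * s ^ 2 = 2 * (u * s ^ 2) := by ring
      rcases hd with hd | hd
      · have hr : r % 8 = 5 := by rw [e1] at hR2; omega
        have hR3 : (r - 2 * u * s ^ 2) % 8 = 3 := by rw [e2]; omega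
        have hp := mul8 _ _ (mul8 _ _ hr (hR2.trans hd)) hR3
        rw [← hrs] at hp
        norm_num at hp
        rcases sqm w with h | h | h <;> omega
      · have hr : r % 8 = 3 := by rw [e1] at hR2; omega
        have hR3 : (r - 2 * u * s ^ 2) % 8 = 1 := by rw [e2]; omega
        have hp := mul8 _ _ (mul8 _ _ hr (hR2.trans hd)) hR3
        rw [← hrs] at hp
        norm_num at hp
        rcases sqm w with h | h | h <;> omega
  · -- `B` even
    obtain ⟨b, rfl⟩ : ∃ b, B = 2 * b := ⟨B / 2, by omega⟩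
    have hb0 : b ≠ 0 := by rintro rfl; simp at hB0
    obtain ⟨R, hR⟩ : ∃ R, R = d₂ * b ^ 2 + m * s ^ 2 := ⟨_, rfl⟩
    have hr : r = 4 * R := by rw [hR]; linarith
    have hs : s % 2 = 1 := by
      rcases Int.emod_two_eq_zero_or_one s with hs | hs
      · exfalso
        have h3 : (2 : ℤ) ∣ r := ⟨2 * R, by rw [hr]; ring⟩
        have h4 : (2 : ℤ) ∣ s := ⟨s / 2, by omega⟩
        have := h.cop.isUnit_of_dvd' h3 h4
        exact absurd this (by decide)
      · exact hs
    have hs2 := sqo s hs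
    have hms := mul8 1 1 hm hs2
    have hus := mul8 1 1 hu hs2
    norm_num at hms hus
    obtain ⟨o, ho⟩ : ∃ o, o = 2 * R - u * s ^ 2 := ⟨_, rfl⟩
    have hw : w ^ 2 = 32 * (R * (d₂ * b ^ 2) * o) := by
      rw [hrs, h2, hr, ho]; ring
    rcases Int.emod_two_eq_zero_or_one b with hb | hb
    · -- contradiction by the valuation
      exfalso
      obtain ⟨c, hc⟩ : ∃ c, b ^ 2 = 2 * c := by
        obtain ⟨c, rfl⟩ : ∃ c, b = 2 * c := ⟨b / 2, by omega⟩
        exact ⟨2 * c ^ 2, by ring⟩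
      have e1 : d₂ * b ^ 2 = 2 * (d₂ * c) := by rw [hc]; ring
      have hRo : R % 2 = 1 := by rw [hR, e1]; omega
      have hoo : o % 2 = 1 := by rw [ho]; omega
      have hd2 : d₂ % 2 = 1 := by omega
      have hX : (R * d₂ * o) % 2 = 1 := by
        simp [Int.mul_emod, hRo, hoo, hd2]
      have hdv : (4 * b) ^ 2 ∣ w ^ 2 := ⟨2 * (R * d₂ * o), by rw [hw]; ring⟩
      obtain ⟨t, ht⟩ := (Int.pow_dvd_pow_iff (by norm_num)).1 hdv
      have h4b : (4 * b) ^ 2 ≠ 0 := by positivity
      have htt : t ^ 2 = 2 * (R * d₂ * o) := by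
        apply mul_left_cancel₀ h4b
        calc (4 * b) ^ 2 * t ^ 2 = w ^ 2 := by rw [ht]; ring
          _ = (4 * b) ^ 2 * (2 * (R * d₂ * o)) := by rw [hw]; ring
      rcases sqm t with h | h | h <;> omega
    · have hb2 := sqo b hb
      have hdb := mul8 (d₂ % 8) 1 rfl hb2
      rw [mul_one, Int.emod_emod_of_dvd _ (dvd_refl 8)] at hdb
      rcases hd with hd | hd
      · exfalso
        rw [hd] at hdb
        have hR8 : R % 8 = 2 := by rw [hR]; omega
        obtain ⟨p, hp⟩ : ∃ p, R = 2 * p := ⟨R / 2, by omega⟩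
        have hp4 : p % 4 = 1 := by omega
        have ho8 : o % 8 = 3 := by rw [ho, hp]; omega
        have hdv : (8 : ℤ) ^ 2 ∣ w ^ 2 := ⟨p * (d₂ * b ^ 2) * o, by rw [hw, hp]; ring⟩
        obtain ⟨t, ht⟩ := (Int.pow_dvd_pow_iff (by norm_num)).1 hdv
        have htt : t ^ 2 = p * (d₂ * b ^ 2) * o := by
          have : (64 : ℤ) * t ^ 2 = 64 * (p * (d₂ * b ^ 2) * o) := by
            calc (64 : ℤ) * t ^ 2 = w ^ 2 := by rw [ht]; ring
              _ = _ := by rw [hw, hp]; ring
          linarith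
        have hp8 : p % 8 = 1 ∨ p % 8 = 5 := by omega
        rcases hp8 with hp8 | hp8
        · have := mul8 _ _ (mul8 _ _ hp8 hdb) ho8
          rw [← htt] at this
          norm_num at this
          rcases sqm t with h | h | h <;> omega
        · have := mul8 _ _ (mul8 _ _ hp8 hdb) ho8
          rw [← htt] at this
          norm_num at this
          rcases sqm t with h | h | h <;> omega
      · right; left
        refine ⟨hd, ?_⟩
        rw [hd] at hdb
        have hR8 : R % 8 = 0 := by rw [hR]; omega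
        have ho8 : o % 8 = 7 := by rw [ho]; omega
        obtain ⟨q, hq⟩ : ∃ q, q = d₂ * b ^ 2 * o := ⟨_, rfl⟩
        have hq8 : q % 8 = 1 := by
          rw [hq, mul8 _ _ hdb ho8]; norm_num
        have hdv : (2 * A) ^ 2 ∣ w ^ 2 := by
          refine ⟨2 * (d₁ * q), ?_⟩
          have : d₁ * A ^ 2 = 4 * R := by rw [← h1, hr]
          calc w ^ 2 = 8 * (4 * R) * q := by rw [hw, hq]; ring
            _ = _ := by rw [← this]; ring
        obtain ⟨t, ht⟩ := (Int.pow_dvd_pow_iff (by norm_num)).1 hdv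
        have h2A : (2 * A) ^ 2 ≠ 0 := by positivity
        have htt : t ^ 2 = 2 * (d₁ * q) := by
          apply mul_left_cancel₀ h2A
          have : d₁ * A ^ 2 = 4 * R := by rw [← h1, hr]
          calc (2 * A) ^ 2 * t ^ 2 = w ^ 2 := by rw [ht]; ring
            _ = 8 * (4 * R) * q := by rw [hw, hq]; ring
            _ = (2 * A) ^ 2 * (2 * (d₁ * q)) := by rw [← this]; ring
        have hte : t % 2 = 0 := by
          rcases Int.emod_two_eq_zero_or_one t with h | h
          · exact h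
          · have := sqo t h
            omega
        obtain ⟨v, rfl⟩ : ∃ v, t = 2 * v := ⟨t / 2, by omega⟩
        have hvv : d₁ * q = 2 * v ^ 2 := by linarith
        have hd1 : d₁ % 2 = 0 := by
          rcases Int.emod_two_eq_zero_or_one d₁ with h | h
          · exact h
          · exfalso
            have hq2 : q % 2 = 1 := by omega
            have : (d₁ * q) % 2 = 1 := by simp [Int.mul_emod, h, hq2]
            omega
        obtain ⟨e, rfl⟩ : ∃ e, d₁ = 2 * e := ⟨d₁ / 2, by omega⟩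
        have heq : v ^ 2 = e * q := by linarith
        have heo : e % 2 = 1 := by
          rcases Int.emod_two_eq_zero_or_one e with h' | h'
          · exfalso
            have hsq := h.sq1
            obtain ⟨f, rfl⟩ : ∃ f, e = 2 * f := ⟨e / 2, by omega⟩
            have := hsq 2 ⟨f, by ring⟩
            exact absurd this (by decide)
          · exact h'
        have hev : v % 2 = 1 := by
          apply odd_of_sq
          rw [heq]
          have hq2 : q % 2 = 1 := by omega
          simp [Int.mul_emod, heo, hq2]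
        have h5 := mul8 (e % 8) 1 rfl hq8
        rw [← heq, sqo v hev, mul_one, Int.emod_emod_of_dvd _ (dvd_refl 8)] at h5
        omega

end Pool.Agent.NJ.H48
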